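import Mathlib

set_option linter.unusedSectionVars false
set_option linter.unusedSimpArgs false

open Complex Finset Filter Topology
open scoped InnerProductSpace ComplexConjugate

namespace Pool.Agent.H.MP_b87acb_an

noncomputable section

variable {n : ℕ}

def zz (w : Fin n → ZMod 4) (i : Fin n) : ℂ := I ^ (w i).val

lemma zz_norm (w : Fin n → ZMod 4) (i : Fin n) : ‖zz w i‖ = 1 := by simp [zz]
lemma zz_mul (w : Fin n → ZMod 4) (i : Fin n) : zz w i * conj (zz w i) = 1 := by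
  rw [mul_conj, normSq_eq_norm_sq, zz_norm]; simp

lemma zz_shift (w : Fin n → ZMod 4) (p i : Fin n) :
    zz (w + Pi.single p 1) i = zz w i * if i = p then I else 1 := by
  unfold zz
  split_ifs with h
  · subst h
    rw [Pi.add_apply, Pi.single_eq_same, ZMod.val_add, ← pow_eq_pow_mod _ I_pow_four, pow_add]
    congr 1; exact pow_one I
  · simp [h]

lemma m4 (i j k l : Fin n) : ∑ w, zz w i * conj (zz w j) * zz w k * conj (zz w l) =
    if i = j ∧ k = l ∨ i = l ∧ k = j then 4 ^ n else 0 := by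
  split_ifs with h
  · have : ∀ w : Fin n → ZMod 4, zz w i * conj (zz w j) * zz w k * conj (zz w l) = 1 := fun w => by
      rcases h with ⟨rfl, rfl⟩ | ⟨rfl, rfl⟩ <;>
        linear_combination zz w k * conj (zz w k) * zz_mul w i + zz_mul w k
    simp [this]
  · have key : ∀ p, (if i = p then I else 1) * conj (if j = p then I else 1) *
        (if k = p then I else 1) * conj (if l = p then I else 1) ≠ 1 →
        ∑ w, zz w i * conj (zz w j) * zz w k * conj (zz w l) = 0 := fun p hp => by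
      have := Equiv.sum_comp (Equiv.addRight (Pi.single p 1 : Fin n → ZMod 4))
        fun w => zz w i * conj (zz w j) * zz w k * conj (zz w l)
      simp only [Equiv.coe_addRight, zz_shift, map_mul] at this
      refine mul_left_cancel₀ (sub_ne_zero.2 hp) ?_
      rw [mul_zero, sub_mul, one_mul, sub_eq_zero, mul_sum]
      exact (sum_congr rfl fun w _ => by ring).trans this
    by_cases h1 : j = i
    · subst h1
      have : l ≠ k := fun e => h (Or.inl ⟨rfl, e.symm⟩)
      refine key k ?_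
      by_cases h2 : j = k <;> simp [*, Complex.ext_iff]
    by_cases h2 : l = i
    · subst h2
      have : j ≠ k := fun e => h (Or.inr ⟨rfl, e.symm⟩)
      refine key k ?_
      by_cases h2 : l = k <;> simp [*, Complex.ext_iff]
    refine key i ?_
    by_cases h3 : k = i <;> simp [*, Complex.ext_iff]
    norm_num

lemma m4' (i j k l : Fin n) : ∑ w, conj (zz w i) * zz w j * conj (zz w k) * zz w l =
    if i = j ∧ k = l ∨ i = l ∧ k = j then 4 ^ n else 0 := by
  rw [show (if i = j ∧ k = l ∨ i = l ∧ k = j then 4 ^ n else 0 : ℂ) =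
    conj (if i = j ∧ k = l ∨ i = l ∧ k = j then 4 ^ n else 0) by split_ifs <;> simp [map_ofNat], ← m4,
    map_sum]
  simp

lemma m2 (i j : Fin n) : ∑ w, zz w i * conj (zz w j) = if i = j then 4 ^ n else 0 := by
  have := m4 i j i i
  simp only [mul_assoc (_ * _), zz_mul, mul_one] at this
  simpa using this

section ring
variable {A : Type} [Ring A] [Algebra ℂ A] {Ω : Type} [Fintype Ω] {α β : Ω → Fin n → ℂ} {N : ℂ}

lemma e2 (h : ∀ i j, ∑ w, α w i * β w j = if i = j then N else 0) (x y : Fin n → A) :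
    ∑ w, (∑ i, α w i • x i) * (∑ j, β w j • y j) = N • ∑ i, x i * y i := by
  simp only [sum_mul_sum, smul_mul_smul_comm]
  rw [sum_comm, smul_sum]
  refine sum_congr rfl fun i _ => ?_
  rw [sum_comm]
  simp [← sum_smul, h]

lemma e4 (h : ∀ i j k l, ∑ w, α w i * β w j * α w k * β w l =
      if i = j ∧ k = l ∨ i = l ∧ k = j then N else 0) (x y u v : Fin n → A) :
    ∑ w, (∑ i, α w i • x i) * (∑ j, β w j • y j) * (∑ k, α w k • u k) * (∑ l, β w l • v l) =
      N • ((∑ i, x i * y i) * (∑ k, u k * v k) + ∑ i, x i * (∑ j, y j * u j) * v i -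
        ∑ i, x i * y i * u i * v i) := by
  have h' : ∀ i j k l : Fin n, (if i = j ∧ k = l ∨ i = l ∧ k = j then N else 0) =
      (if l = k then if j = i then N else 0 else 0) + (if l = i then if k = j then N else 0 else 0) -
        if l = i then if k = i then if j = i then N else 0 else 0 else 0 := fun i j k l => by
    split_ifs <;> simp_all
    all_goals tauto
  have e : ∀ w, (∑ i, α w i • x i) * (∑ j, β w j • y j) * (∑ k, α w k • u k) * (∑ l, β w l • v l) =
      ∑ i, ∑ j, ∑ k, ∑ l, (α w i * β w j * α w k * β w l) • (x i * y j * u k * v l) := fun w => by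
    simp only [sum_mul, mul_sum, smul_mul_smul_comm]
    rw [sum_comm]; conv_lhs => enter [2, k]; rw [sum_comm]; enter [2, j]; rw [sum_comm]
    rw [sum_comm]; conv_lhs => enter [2, j]; rw [sum_comm]
    rw [sum_comm]
  simp only [e]
  rw [sum_comm]
  conv_lhs => enter [2, i]; rw [sum_comm]; enter [2, j]; rw [sum_comm]; enter [2, k]; rw [sum_comm]
  simp only [← sum_smul, h]
  simp only [h', sub_smul, add_smul, ite_smul, zero_smul, sum_sub_distrib,
    sum_add_distrib, sum_ite_eq', mem_univ, if_true, smul_sub, smul_add, smul_sum, sum_mul, mul_sum,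
    mul_assoc]
  congr 2
  conv_rhs => rw [sum_comm]
  refine sum_congr rfl fun i _ => ?_
  rw [sum_comm]; simp
end ring

section hilb
variable {K : Type} [NormedAddCommGroup K] [InnerProductSpace ℂ K] [CompleteSpace K]

def q (η ξ : K) (X : K →L[ℂ] K) : ℝ := (⟪η, X ξ⟫_ℂ).re

lemma q_add (η ξ : K) (X Y : K →L[ℂ] K) : q η ξ (X + Y) = q η ξ X + q η ξ Y := by
  simp [q, inner_add_right]
lemma q_sub (η ξ : K) (X Y : K →L[ℂ] K) : q η ξ (X - Y) = q η ξ X - q η ξ Y := by
  simp [q, inner_sub_right]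
lemma q_smul (η ξ : K) (c : ℝ) (X : K →L[ℂ] K) : q η ξ ((c : ℂ) • X) = c * q η ξ X := by
  simp [q]
lemma q_sum {ι : Type} [Fintype ι] (η ξ : K) (X : ι → K →L[ℂ] K) :
    q η ξ (∑ i, X i) = ∑ i, q η ξ (X i) := by
  simp [q, inner_sum]
lemma q_mul (η ξ : K) (X Y : K →L[ℂ] K) : q η ξ (X * Y) = q (star X η) ξ Y := by
  simp [q, ContinuousLinearMap.star_eq_adjoint, ContinuousLinearMap.adjoint_inner_left]
lemma q_mul' (η ξ : K) (X Y : K →L[ℂ] K) : q η ξ (X * Y) = q η (Y ξ) X := rfl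
lemma q_one (ξ : K) : q ξ ξ 1 = ‖ξ‖ ^ 2 := by
  simp [q, ← ofReal_pow]
lemma q_sq (ξ : K) (X : K →L[ℂ] K) : q ξ ξ (star X * X) = ‖X ξ‖ ^ 2 := by
  rw [q_mul, star_star, ← q_one]; rfl
lemma q_sq' (ξ : K) (X : K →L[ℂ] K) : q ξ ξ (X * star X) = ‖star X ξ‖ ^ 2 := by
  rw [← q_sq, star_star]
lemma q_le (η ξ : K) (X : K →L[ℂ] K) : q η ξ X ≤ ‖η‖ * ‖X ξ‖ :=
  (re_le_norm _).trans (norm_inner_le_norm _ _)

lemma term (η ξ : K) {F X Y : K →L[ℂ] K} (hc : Commute F X) {c : ℝ} (hF : ‖F‖ ≤ c) :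
    q η ξ (F * X * Y) ≤ c * (‖star X η‖ * ‖Y ξ‖) := by
  rw [hc.eq, mul_assoc, q_mul]
  refine (q_le _ _ _).trans ?_
  rw [mul_left_comm]
  exact mul_le_mul_of_nonneg_left (F.le_of_opNorm_le hF _) (norm_nonneg _)

variable {a b : Fin n → K →L[ℂ] K}

lemma star_G (w : Fin n → ZMod 4) : star (∑ j, conj (zz w j) • a j) = ∑ j, zz w j • star (a j) := by
  simp [star_sum, star_smul]

lemma comm_sum {ι κ : Type} [Fintype ι] [Fintype κ] {x : ι → K →L[ℂ] K} {y : κ → K →L[ℂ] K}
    (h : ∀ i j, Commute (x i) (y j)) (α : ι → ℂ) (β : κ → ℂ) :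
    Commute (∑ i, α i • x i) (∑ j, β j • y j) :=
  Commute.sum_left _ _ _ fun i _ => Commute.sum_right _ _ _ fun j _ => ((h i j).smul_left _).smul_right _

lemma EG (ξ : K) : ∑ w, ‖(∑ j, conj (zz w j) • a j) ξ‖ ^ 2 = 4 ^ n * ∑ i, ‖a i ξ‖ ^ 2 := by
  simp only [← q_sq, ← q_sum, star_G]
  rw [e2 m2, ← q_smul]; simp
lemma EG' (ξ : K) : ∑ w, ‖star (∑ j, conj (zz w j) • a j) ξ‖ ^ 2 =
    4 ^ n * ∑ i, ‖star (a i) ξ‖ ^ 2 := by
  simp only [← q_sq']
  simp only [← q_sum, star_G]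
  rw [e2 (N := 4 ^ n) (fun i j => by simp only [mul_comm (conj _), m2, eq_comm]), ← q_smul]; simp

theorem U2 (h1 : ∀ i j, Commute (b i) (a j)) (h2 : ∀ i j, Commute (b i) (star (a j)))
    (ha : ∀ z : Fin n → ℂ, ‖∑ i, z i • a i‖ ≤ √(∑ i, ‖z i‖ ^ 2))
    (hb : ∀ z : Fin n → ℂ, ‖∑ i, z i • b i‖ ≤ √(∑ i, ‖z i‖ ^ 2)) :
    ‖∑ i, b i * a i‖ ≤ (n + 1) / 2 := by
  set T := ∑ i, b i * a i with hT
  set C := ∑ i, star (a i) * a i with hC
  set R := ∑ i, a i * star (a i) with hR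
  have one : ∀ {a : Fin n → K →L[ℂ] K}, (∀ z : Fin n → ℂ, ‖∑ i, z i • a i‖ ≤ √(∑ i, ‖z i‖ ^ 2)) →
      ∀ i, ‖a i‖ ≤ 1 := fun h i => by
    simpa [Pi.single_apply, apply_ite] using h (Pi.single i 1)
  have key : ∀ η ξ, q η ξ (T * C + R * T) ≤
      (n + 1) / 2 * (∑ i, ‖star (a i) η‖ ^ 2 + ∑ i, ‖a i ξ‖ ^ 2) := fun η ξ => by
    have e := e4 m4 b a (fun i => star (a i)) a
    have e' : ∑ i, b i * R * a i = R * T := by
      rw [hT, mul_sum]
      exact sum_congr rfl fun i _ => by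
        rw [(Commute.sum_right _ _ _ fun j _ => (h1 i j).mul_right (h2 i j)).eq, mul_assoc]
    rw [← hT, ← hC, ← hR, e', show (4 ^ n : ℂ) = (4 ^ n : ℝ) by simp] at e
    have e1 := congrArg (q η ξ) e
    rw [q_smul, q_sub, q_sum, q_sum] at e1
    have b1 : ∀ w, q η ξ ((∑ i, zz w i • b i) * (∑ j, conj (zz w j) • a j) * (∑ k, zz w k • star (a k)) *
        ∑ l, conj (zz w l) • a l) ≤ n / 2 * (‖star (∑ j, conj (zz w j) • a j) η‖ ^ 2 +
          ‖(∑ j, conj (zz w j) • a j) ξ‖ ^ 2) := fun w => by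
      have c1 := hb (zz w); have c2 := ha fun j => conj (zz w j)
      simp only [zz_norm, RCLike.norm_conj, one_pow, sum_const, card_univ, Fintype.card_fin,
        nsmul_one] at c1 c2
      rw [mul_assoc (∑ i, _)]
      refine (term η ξ ((comm_sum h1 _ _).mul_right (comm_sum h2 _ _)) c1).trans ?_
      rw [← star_G]
      generalize (∑ j, conj (zz w j) • a j) = G at *
      have c3 : ‖star (G * star G) η‖ ≤ √n * ‖star G η‖ := by
        rw [star_mul, star_star]; exact G.le_of_opNorm_le c2 _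
      have c4 := Real.mul_self_sqrt (n.cast_nonneg (α := ℝ))
      calc _ ≤ √n * (√n * ‖star G η‖ * ‖G ξ‖) := by gcongr
        _ = n * (‖star G η‖ * ‖G ξ‖) := by linear_combination ‖star G η‖ * ‖G ξ‖ * c4
        _ ≤ _ := by nlinarith [mul_nonneg (n.cast_nonneg (α := ℝ)) (sq_nonneg (‖star G η‖ - ‖G ξ‖))]
    have b2 : ∀ i, q η ξ (b i * a i * star (a i) * a i) ≤
        1 / 2 * (‖star (a i) η‖ ^ 2 + ‖a i ξ‖ ^ 2) := fun i => by
      rw [mul_assoc (b i)]
      refine (term η ξ ((h1 i i).mul_right (h2 i i)) (one hb i)).trans ?_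
      have c3 : ‖star (a i * star (a i)) η‖ ≤ 1 * ‖star (a i) η‖ := by
        rw [star_mul, star_star]; exact (a i).le_of_opNorm_le (one ha i) _
      nlinarith [sq_nonneg (‖star (a i) η‖ - ‖a i ξ‖), mul_le_mul_of_nonneg_right c3 (norm_nonneg (a i ξ))]
    have s1 := sum_le_sum fun w (_ : w ∈ univ) => b1 w
    have s2 := sum_le_sum fun w (_ : w ∈ univ) => b2 w
    rw [← mul_sum, sum_add_distrib] at s1 s2
    rw [e1, EG, EG', ← mul_add, mul_left_comm] at s1
    linarith [le_of_mul_le_mul_left s1 (by positivity)]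
  by_contra hs
  push Not at hs
  set s := ‖T‖
  have s0 : 0 < s := lt_of_le_of_lt (by positivity) hs
  have h3 : ∀ r ∈ Set.Ioo 0 s, (s - (n + 1) / 2) * r ^ 2 ≤ n * ‖C‖ * √(s ^ 2 - r ^ 2) := fun r hr => by
    obtain ⟨ξ, x1, x2⟩ := T.exists_lt_apply_of_lt_opNorm hr.2
    have k := key (T ξ) ((s : ℂ) • ξ)
    have k1 : q (T ξ) ((s : ℂ) • ξ) (R * T) = s * ∑ i, ‖star (a i) (T ξ)‖ ^ 2 := by
      simp only [← q_sq', ← q_sum]; simp [q, hR, mul_sum]
    set V : K := (s ^ 2 : ℝ) • ξ - star T (T ξ) with hV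
    have k2 : q (T ξ) ((s : ℂ) • ξ) (T * C) = s * (s ^ 2 * ∑ i, ‖a i ξ‖ ^ 2 - q V ξ C) := by
      simp only [← q_sq, ← q_sum]
      rw [q_mul, hV, ← hC]; simp [q, inner_sub_left, ← ofReal_pow]
    have k3 : ‖V‖ ≤ s * √(s ^ 2 - r ^ 2) := by
      have t1 : ‖star T (T ξ)‖ ≤ s * ‖T ξ‖ := (star T).le_of_opNorm_le (norm_star T).le _
      have t2 : (⟪ξ, star T (T ξ)⟫_ℂ).re = ‖T ξ‖ ^ 2 := q_sq ξ T
      have t3 : r ^ 2 ≤ ‖T ξ‖ ^ 2 := by gcongr; exact hr.1.le
      have t4 : ‖ξ‖ ^ 2 ≤ 1 := pow_le_one₀ (norm_nonneg _) x1.le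
      rw [← Real.sqrt_sq s0.le, ← Real.sqrt_mul (sq_nonneg _), Real.sqrt_sq s0.le]
      refine Real.le_sqrt_of_sq_le ?_
      rw [hV, norm_sub_sq (𝕜 := ℂ), norm_smul, ← Complex.coe_smul, inner_smul_left, conj_ofReal,
        RCLike.re_to_complex, re_ofReal_mul, t2, Real.norm_of_nonneg (sq_nonneg _)]
      nlinarith [pow_le_pow_left₀ (norm_nonneg _) t1 2, mul_le_mul_of_nonneg_left t3 (sq_nonneg s),
        mul_le_mul_of_nonneg_left t4 (sq_nonneg (s ^ 2))]
    have k4 : q V ξ C ≤ s * √(s ^ 2 - r ^ 2) * ‖C‖ := (q_le _ _ _).trans (mul_le_mul k3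
      ((C.le_opNorm ξ).trans (mul_le_of_le_one_right (norm_nonneg _) x1.le)) (norm_nonneg _) (by positivity))
    have k5 : r ^ 2 ≤ n * ∑ i, ‖a i ξ‖ ^ 2 := by
      have : ‖T ξ‖ ≤ ∑ i, ‖a i ξ‖ := by
        rw [hT, _root_.sum_apply]
        exact norm_sum_le_of_le _ fun i _ => ((b i).le_of_opNorm_le (one hb i) _).trans_eq (one_mul _)
      refine (pow_le_pow_left₀ hr.1.le (x2.le.trans this) 2).trans ?_
      simpa using sq_sum_le_card_mul_sum_sq (s := univ) (f := fun i => ‖a i ξ‖)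
    simp only [q_add, k1, k2, map_smul, norm_smul, norm_real, Real.norm_of_nonneg s0.le, mul_pow,
      ← mul_sum] at k
    have p1 : 0 ≤ ∑ i, ‖star (a i) (T ξ)‖ ^ 2 := by positivity
    generalize ∑ i, ‖star (a i) (T ξ)‖ ^ 2 = ρ at *
    generalize ∑ i, ‖a i ξ‖ ^ 2 = σ at *
    have k6 : (s - (n + 1) / 2) * σ ≤ ‖C‖ * √(s ^ 2 - r ^ 2) := by
      refine le_of_mul_le_mul_left ?_ (pow_pos s0 2)
      nlinarith [mul_le_mul_of_nonneg_left k4 s0.le, mul_nonneg (sub_pos.2 hs).le p1]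
    nlinarith [mul_le_mul_of_nonneg_left k6 (n.cast_nonneg (α := ℝ)),
      mul_le_mul_of_nonneg_left k5 (sub_pos.2 hs).le]
  have := le_of_tendsto_of_tendsto (b := 𝓝[<] s) (f := fun r => (s - (n + 1) / 2) * r ^ 2)
    (g := fun r => n * ‖C‖ * √(s ^ 2 - r ^ 2))
    (tendsto_nhdsWithin_of_tendsto_nhds (Continuous.tendsto (by fun_prop) s))
    (tendsto_nhdsWithin_of_tendsto_nhds (Continuous.tendsto (by fun_prop) s))
    (mem_of_superset (Ioo_mem_nhdsLT s0) h3)
  simp only [sub_self, Real.sqrt_zero, mul_zero] at this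
  nlinarith [mul_pos (sub_pos.2 hs) (pow_pos s0 2)]

theorem Ui {d : Fin n → K →L[ℂ] K} (h1 : ∀ i j, Commute (b i) (a j))
    (h2 : ∀ i j, Commute (b i) (star (a j))) (h3 : ∀ i j, Commute (b i) (star (d j)))
    (hd : ∀ i, star (d i) * d i = 1 - star (a i) * a i) (hn : 0 < n)
    (hb : ∀ z : Fin n → ℂ, (∀ i, ‖z i‖ ≤ 1) → ‖∑ i, z i • b i‖ ≤ 1) (ξ : K) :
    (2 * n - 1) * ‖(∑ i, b i * a i) ξ‖ ^ 2 ≤ n ^ 2 * ‖ξ‖ ^ 2 := by
  set T := ∑ i, b i * a i with hT
  set C := ∑ i, star (a i) * a i with hC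
  set R := ∑ i, a i * star (a i) with hR
  set η := T ξ with hη
  set F := fun w => ∑ i, zz w i • b i with hF
  set G := fun w => ∑ j, conj (zz w j) • a j with hG
  set X := fun w => ((n : ℝ) : ℂ) • 1 + G w * star (G w) - R with hX
  set c := fun i j => if j = i then 0 else a j * star (d i) with hc
  set Y := fun w i => ∑ j, conj (zz w j) • c i j with hY
  have N0 : (4 ^ n : ℂ) = (4 ^ n : ℝ) := by simp
  have n0 : (0 : ℝ) < n := by exact_mod_cast hn
  have cR : ∀ i, Commute (b i) R := fun i => .sum_right _ _ _ fun j _ => (h1 i j).mul_right (h2 i j)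
  have fR : ∀ w, Commute (F w) R := fun w => .sum_left _ _ _ fun i _ => (cR i).smul_left _
  have fG : ∀ w, Commute (F w) (G w * star (G w)) := fun w =>
    (comm_sum h1 _ _).mul_right (star_G (a := a) w ▸ comm_sum h2 _ _)
  have nd : ∀ i v, ‖a i v‖ ^ 2 + ‖d i v‖ ^ 2 = ‖v‖ ^ 2 := fun i v => by
    rw [← q_sq, ← q_sq, hd, q_sub, q_one]; ring
  have E1 : ∑ w, F w * X w * G w =
      (4 ^ n : ℂ) • (((n : ℝ) : ℂ) • T + T * C - ∑ i, b i * a i * star (a i) * a i) := by
    have : ∀ w, F w * X w * G w = ((n : ℝ) : ℂ) • (F w * G w) + F w * G w * star (G w) * G w -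
        R * (F w * G w) := fun w => by
      simp only [hX, mul_add, mul_sub, add_mul, sub_mul, (fR w).eq, mul_assoc, mul_smul_comm,
        smul_mul_assoc, one_mul]
    simp only [this]
    simp only [sum_sub_distrib, sum_add_distrib, ← smul_sum, ← mul_sum, hF, hG, star_G]
    rw [e2 m2, e4 m4, ← hT, ← hC, ← hR, show ∑ i, b i * R * a i = R * T by
      rw [hT, mul_sum]; exact sum_congr rfl fun i _ => by rw [(cR i).eq, mul_assoc], mul_smul_comm]
    module
  have E2 : ∑ i, ∑ w, F w * Y w i * d i = (4 ^ n : ℂ) • (((n : ℝ) : ℂ) • T - T * C - T +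
      ∑ i, b i * a i * star (a i) * a i) := by
    have : ∀ i, (∑ j, b j * c i j) * d i = T - T * (star (a i) * a i) - b i * a i +
        b i * a i * star (a i) * a i := fun i => by
      have : ∑ j, b j * c i j = (T - b i * a i) * star (d i) := by
        rw [hT, ← sum_erase_eq_sub (mem_univ i), sum_mul, ← sum_erase_add _ _ (mem_univ i)]
        simp only [hc, if_true, mul_zero, add_zero]
        exact sum_congr rfl fun j hj => by rw [if_neg (ne_of_mem_erase hj), mul_assoc]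
      rw [this, mul_assoc, hd]; noncomm_ring
    simp only [← sum_mul, hF, hY, e2 m2, smul_mul_assoc, this, ← smul_sum, sum_add_distrib,
      sum_sub_distrib, ← mul_sum, ← hT, ← hC]
    simp [← Nat.cast_smul_eq_nsmul ℂ]
  have E3 : ∑ w, X w * star (X w) = (4 ^ n : ℂ) • (((n ^ 2 : ℝ) : ℂ) • 1 + ∑ i, a i * C * star (a i) -
      ∑ i, a i * star (a i) * a i * star (a i)) := by
    have sR : star R = R := by simp [hR, star_sum]
    have : ∀ w, X w * star (X w) = ((n ^ 2 : ℝ) : ℂ) • 1 + (2 * n : ℂ) • (G w * star (G w)) -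
        (2 * n : ℂ) • R + G w * star (G w) * G w * star (G w) - G w * star (G w) * R -
        R * (G w * star (G w)) + R * R := fun w => by
      simp only [hX, star_sub, star_add, star_smul, star_mul, star_star, star_one, sR, mul_add, mul_sub,
        add_mul, sub_mul, mul_assoc, mul_smul_comm, smul_mul_assoc, one_mul, mul_one, RCLike.star_def,
        conj_ofReal]
      push_cast; module
    simp only [this, sum_sub_distrib, sum_add_distrib, ← smul_sum, ← mul_sum, ← sum_mul, hG, star_G]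
    rw [e2 (N := 4 ^ n) (fun i j => by simp only [mul_comm (conj _), m2, eq_comm]), e4 m4', ← hR, ← hC]
    simp only [sum_const, card_univ, Fintype.card_fun, ZMod.card, Fintype.card_fin, mul_smul_comm,
      smul_mul_assoc, ← Nat.cast_smul_eq_nsmul ℂ]
    push_cast; module
  have E4 : ∑ i, ∑ j, c i j * star (c i j) = ((n - 1 : ℝ) : ℂ) • R - ∑ i, a i * C * star (a i) +
      ∑ i, a i * star (a i) * a i * star (a i) := by
    have : ∀ j, ∑ i, c i j * star (c i j) = ((n - 1 : ℝ) : ℂ) • (a j * star (a j)) - a j * C * star (a j) +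
        a j * star (a j) * a j * star (a j) := fun j => by
      have : ∀ i, c i j * star (c i j) = (a j * star (a j) - a j * (star (a i) * a i) * star (a j)) -
          if j = i then a j * star (a j) - a j * star (a j) * a j * star (a j) else 0 := fun i => by
        simp only [hc]
        split_ifs with h
        · subst h; noncomm_ring
        · rw [star_mul, star_star, mul_assoc, ← mul_assoc (star (d i)), hd]; noncomm_ring
      simp only [this, sum_sub_distrib, ← sum_mul, ← mul_sum, ← hC, sum_ite_eq, mem_univ, if_true,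
        sum_const, card_univ, Fintype.card_fin, ← Nat.cast_smul_eq_nsmul ℂ, smul_mul_assoc]
      push_cast; module
    rw [sum_comm]
    simp only [this, sum_add_distrib, sum_sub_distrib, ← smul_sum, ← hR]
  have am : ∀ x y : ℝ, 1 * (x * y) ≤ 1 / (2 * n) * x ^ 2 + n / 2 * y ^ 2 := fun x y => by
    rw [← sub_nonneg, show 1 / (2 * n) * x ^ 2 + n / 2 * y ^ 2 - 1 * (x * y) = (x - n * y) ^ 2 / (2 * n) by
      field_simp; ring]
    positivity
  have nF : ∀ w, ‖F w‖ ≤ 1 := fun w => hb _ fun i => (zz_norm w i).le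
  have s1 := sum_le_sum fun w (_ : w ∈ univ) => (term η ξ (Y := G w) (show Commute (F w) (X w) from
    (((Commute.one_right _).smul_right _).add_right (fG w)).sub_right (fR w)) (nF w)).trans (am _ _)
  have s2 := sum_le_sum fun i (_ : i ∈ univ) => sum_le_sum fun w (_ : w ∈ univ) =>
    (term η ξ (Y := d i) (show Commute (F w) (Y w i) from comm_sum (fun k j => by
      simp only [hc]; split_ifs
      exacts [Commute.zero_right _, (h1 k j).mul_right (h3 k i)]) _ _) (nF w)).trans (am _ _)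
  simp only [sum_add_distrib, ← mul_sum, ← q_sum, hG, hY, EG, EG'] at s1 s2
  simp only [← q_sq', ← q_sum] at s1 s2
  have qT : q η ξ T = ‖η‖ ^ 2 := q_one η
  rw [E1, E3] at s1
  rw [E2, E4] at s2
  simp only [N0, q_smul, q_add, q_sub, q_one, qT, sum_const, card_univ, Fintype.card_fun, ZMod.card,
    Fintype.card_fin, nsmul_eq_mul, ← mul_sum] at s1 s2
  have r1 : q η η R ≤ n * ‖η‖ ^ 2 := by
    rw [hR, q_sum]
    refine (sum_le_card_nsmul _ _ (‖η‖ ^ 2) fun i _ => ?_).trans (by simp)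
    have : ‖a i‖ ≤ 1 := (a i).opNorm_le_bound zero_le_one fun v => by
      rw [one_mul]; exact abs_le_of_sq_le_sq' (by linarith [nd i v, sq_nonneg ‖d i v‖]) (norm_nonneg _) |>.2
    rw [q_sq']
    exact pow_le_pow_left₀ (norm_nonneg _) (((star (a i)).le_of_opNorm_le
      ((norm_star _).trans_le this) η).trans_eq (one_mul _)) 2
  have r2 : ∑ i, ‖a i ξ‖ ^ 2 + ∑ i, ‖d i ξ‖ ^ 2 = n * ‖ξ‖ ^ 2 := by
    simp [← sum_add_distrib, nd]
  have s3 := add_le_add s1 s2
  have n1 : (1 : ℝ) ≤ n := by exact_mod_cast hn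
  have s4 : (2 * n - 1) * ‖η‖ ^ 2 ≤ 1 / (2 * n) * (n ^ 2 * ‖η‖ ^ 2 + (n - 1) * q η η R) +
      n / 2 * (n * ‖ξ‖ ^ 2) := by
    refine le_of_mul_le_mul_left ?_ (show (0 : ℝ) < 4 ^ n by positivity)
    rw [← r2]; push_cast at s3; linarith
  have s5 : 1 / (2 * n) * (n ^ 2 * ‖η‖ ^ 2 + (n - 1) * q η η R) ≤ (2 * n - 1) / 2 * ‖η‖ ^ 2 := by
    rw [one_div, inv_mul_le_iff₀ (by positivity)]
    nlinarith [mul_le_mul_of_nonneg_left r1 (sub_nonneg.2 n1)]
  linarith

end hilb

end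
end Pool.Agent.H.MP_b87acb_an
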