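import Mathlib

open scoped ENNReal

namespace Pool.Agent.H.MP_b87acb_an

noncomputable section

/-- Norm of an `m × m` matrix of operators on `H`, as an operator on `H^m` (Hilbert sum):
the norm of `M_m(B(H)) = B(H^m)`. -/
def opN {m : ℕ} {H : Type} [NormedAddCommGroup H] [InnerProductSpace ℂ H]
    (T : Matrix (Fin m) (Fin m) (H →L[ℂ] H)) : ℝ≥0∞ :=
  ⨆ (ξ : Fin m → H) (_ : ∑ q, ‖ξ q‖ ^ 2 ≤ 1), ENNReal.ofReal √(∑ p, ‖∑ q, T p q (ξ q)‖ ^ 2)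

/-- The norm of `M_m(min E)`: sup over `f` in the unit ball of `E^*` of the operator norm on
`ℓ_2^m` of the scalar matrix `(f(x_pq))`. -/
def minN {E : Type} [NormedAddCommGroup E] [NormedSpace ℂ E] {m : ℕ}
    (x : Matrix (Fin m) (Fin m) E) : ℝ≥0∞ :=
  ⨆ (f : E →L[ℂ] ℂ) (_ : ‖f‖ ≤ 1), ‖Matrix.toEuclideanCLM (𝕜 := ℂ) (x.map f)‖ₑ

/-- The norm of `M_m(max E)`: sup over Hilbert spaces `H` and contractions `u : E → B(H)` of the
norm of `(u(x_pq))` in `M_m(B(H))`. -/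
def maxN {E : Type} [NormedAddCommGroup E] [NormedSpace ℂ E] {m : ℕ}
    (x : Matrix (Fin m) (Fin m) E) : ℝ≥0∞ :=
  ⨆ (H : Type) (_ : NormedAddCommGroup H) (_ : InnerProductSpace ℂ H) (_ : CompleteSpace H)
    (u : E →L[ℂ] H →L[ℂ] H) (_ : ‖u‖ ≤ 1), opN (x.map u)

/-- Paulsen's constant: the cb norm of the identity `min E → max E`. -/
def alpha (E : Type) [NormedAddCommGroup E] [NormedSpace ℂ E] : ℝ≥0∞ :=
  ⨆ (m : ℕ) (x : Matrix (Fin m) (Fin m) E) (_ : minN x ≤ 1), maxN x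

end

end Pool.Agent.H.MP_b87acb_an
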