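import Pool.Agent.H.MP_b87acb_an.A
import Pool.Agent.H.MP_b87acb_an.Defs

set_option linter.unusedSectionVars false
set_option linter.unusedSimpArgs false

open Complex Finset Filter Topology Matrix
open scoped InnerProductSpace ComplexConjugate

namespace Pool.Agent.H.MP_b87acb_an

noncomputable section

variable {n m : ℕ}

abbrev tE (A : Matrix (Fin m) (Fin m) ℂ) := Matrix.toEuclideanCLM (𝕜 := ℂ) A

lemma ex_D {A : Matrix (Fin m) (Fin m) ℂ} (h : ‖tE A‖ ≤ 1) :
    ∃ D : Matrix (Fin m) (Fin m) ℂ, star D * D = 1 - star A * A := by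
  have h1 : star (tE A) * tE A ≤ 1 := CStarAlgebra.star_mul_le_algebraMap_norm_sq.trans (by
    rw [Algebra.algebraMap_eq_smul_one]
    exact (smul_le_smul_of_nonneg_right (pow_le_one₀ (norm_nonneg _) h) zero_le_one).trans_eq
      (one_smul ℝ _))
  obtain ⟨d, hd⟩ := CStarAlgebra.nonneg_iff_eq_star_mul_self.1 (sub_nonneg.2 h1)
  obtain ⟨D, rfl⟩ := (Matrix.toEuclideanCLM (𝕜 := ℂ) (n := Fin m)).surjective d
  refine ⟨D, EquivLike.injective (Matrix.toEuclideanCLM (𝕜 := ℂ)) ?_⟩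
  rw [map_sub, map_mul, map_mul, map_star, map_star, map_one]
  exact hd.symm

section
variable {H : Type} [NormedAddCommGroup H] [InnerProductSpace ℂ H] [CompleteSpace H]

def tau (T : Matrix (Fin m) (Fin m) (H →L[ℂ] H)) :
    PiLp 2 (fun _ : Fin m => H) →L[ℂ] PiLp 2 (fun _ : Fin m => H) :=
  (PiLp.continuousLinearEquiv 2 ℂ _).symm.toContinuousLinearMap ∘L
    ContinuousLinearMap.pi fun p => ∑ q, T p q ∘L PiLp.proj 2 (fun _ : Fin m => H) q

lemma tau_apply (T : Matrix (Fin m) (Fin m) (H →L[ℂ] H)) (ξ) (p) : tau T ξ p = ∑ q, T p q (ξ q) := by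
  simp [tau]

lemma opN_le {T : Matrix (Fin m) (Fin m) (H →L[ℂ] H)} {c : ℝ} (h : ‖tau T‖ ≤ c) :
    opN T ≤ ENNReal.ofReal c := iSup₂_le fun ξ hξ => ENNReal.ofReal_le_ofReal (by
  have := (tau T).unit_le_opNorm (WithLp.toLp 2 ξ) (by
    rw [PiLp.norm_eq_of_L2]; exact Real.sqrt_le_one.2 hξ)
  rw [PiLp.norm_eq_of_L2] at this
  simpa only [tau_apply] using this.trans h)

variable (H) in
def piA (A : Matrix (Fin m) (Fin m) ℂ) := tau (A.map fun c => c • (1 : H →L[ℂ] H))
variable (m) in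
def dg (B : H →L[ℂ] H) := tau (diagonal fun _ : Fin m => B)

@[simp] lemma piA_apply (A : Matrix (Fin m) (Fin m) ℂ) (ξ) (p) : piA H A ξ p = ∑ q, A p q • ξ q := by
  simp [piA, tau_apply]
@[simp] lemma dg_apply (B : H →L[ℂ] H) (ξ) (p) : dg m B ξ p = B (ξ p) := by
  rw [dg, tau_apply, sum_eq_single p] <;> simp +contextual [diagonal_apply_ne']

lemma piA_mul (A B : Matrix (Fin m) (Fin m) ℂ) : piA H (A * B) = piA H A * piA H B := by
  ext ξ p
  simp only [piA_apply, Matrix.mul_apply, sum_smul, mul_apply_eq_comp, smul_sum, smul_smul]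
  exact sum_comm
lemma piA_star (A : Matrix (Fin m) (Fin m) ℂ) : star (piA H A) = piA H (star A) := by
  rw [eq_comm, ContinuousLinearMap.star_eq_adjoint, ContinuousLinearMap.eq_adjoint_iff]
  intro x y
  simp only [PiLp.inner_apply, piA_apply, sum_inner, inner_sum, inner_smul_left, inner_smul_right,
    star_apply, RCLike.star_def, conj_conj]
  exact sum_comm
lemma piA_sub (A : Matrix (Fin m) (Fin m) ℂ) : piA H (1 - A) = 1 - piA H A := by
  ext ξ p; simp [sub_smul, one_apply, ite_smul]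
lemma piA_sum (A : Fin n → Matrix (Fin m) (Fin m) ℂ) (z : Fin n → ℂ) :
    piA H (∑ i, z i • A i) = ∑ i, z i • piA H (A i) := by
  ext ξ p
  simp only [piA_apply, Matrix.sum_apply, Matrix.smul_apply, sum_smul, _root_.sum_apply, smul_sum,
    _root_.smul_apply, WithLp.ofLp_sum, WithLp.ofLp_smul, Finset.sum_apply, Pi.smul_apply,
    smul_smul, smul_eq_mul]
  exact sum_comm
lemma dg_comm (B : H →L[ℂ] H) (A : Matrix (Fin m) (Fin m) ℂ) : Commute (dg m B) (piA H A) := by
  ext ξ p; simp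
lemma dg_comm' (B : H →L[ℂ] H) (A : Matrix (Fin m) (Fin m) ℂ) : Commute (dg m B) (star (piA H A)) := by
  rw [piA_star]; exact dg_comm _ _
lemma piA_D {A D : Matrix (Fin m) (Fin m) ℂ} (h : star D * D = 1 - star A * A) :
    star (piA H D) * piA H D = 1 - star (piA H A) * piA H A := by
  rw [piA_star, piA_star, ← piA_mul, ← piA_mul, h, piA_sub]
lemma piA_norm {A : Matrix (Fin m) (Fin m) ℂ} (h : ‖tE A‖ ≤ 1) : ‖piA H A‖ ≤ 1 := by
  obtain ⟨D, hD⟩ := ex_D h
  refine ContinuousLinearMap.opNorm_le_bound _ zero_le_one fun v => ?_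
  have := q_sq v (piA H D)
  rw [piA_D hD, q_sub, q_one, q_sq] at this
  rw [one_mul]; exact (abs_le_of_sq_le_sq' (by linarith [sq_nonneg ‖piA H D v‖]) (norm_nonneg _)).2
lemma dg_norm (B : Fin n → H →L[ℂ] H) (z : Fin n → ℂ) : ‖∑ i, z i • dg m (B i)‖ ≤ ‖∑ i, z i • B i‖ := by
  have : ∑ i, z i • dg m (B i) = dg m (∑ i, z i • B i) := by ext ξ p; simp
  rw [this]
  refine ContinuousLinearMap.opNorm_le_bound _ (norm_nonneg _) fun v => ?_
  rw [PiLp.norm_eq_of_L2, PiLp.norm_eq_of_L2, ← Real.sqrt_sq (norm_nonneg (∑ i, z i • B i)),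
    ← Real.sqrt_mul (sq_nonneg _), mul_sum]
  refine Real.sqrt_le_sqrt (sum_le_sum fun p _ => ?_)
  rw [← mul_pow, dg_apply]
  exact pow_le_pow_left₀ (norm_nonneg _) (ContinuousLinearMap.le_opNorm _ _) 2

variable {E : Type} [NormedAddCommGroup E] [NormedSpace ℂ E]

lemma tau_map {e : Fin n → E} {φ : Fin n → E →L[ℂ] ℂ} (h : ∀ v, v = ∑ i, φ i v • e i)
    (x : Matrix (Fin m) (Fin m) E) (u : E →L[ℂ] H →L[ℂ] H) :
    tau (x.map u) = ∑ i, dg m (u (e i)) * piA H (x.map (φ i)) := by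
  ext ξ p
  simp only [tau_apply, map_apply, _root_.sum_apply, mul_apply_eq_comp, WithLp.ofLp_sum,
    Finset.sum_apply, dg_apply, piA_apply, map_sum, map_smul]
  rw [sum_comm]
  refine sum_congr rfl fun q _ => ?_
  conv_lhs => rw [h (x p q)]
  simp
end

lemma minN_le {E : Type} [NormedAddCommGroup E] [NormedSpace ℂ E] {x : Matrix (Fin m) (Fin m) E}
    (h : minN x ≤ 1) (f : E →L[ℂ] ℂ) (hf : ‖f‖ ≤ 1) : ‖tE (x.map f)‖ ≤ 1 := by
  have := (le_iSup₂_of_le f hf le_rfl).trans h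
  rwa [← ofReal_norm, ENNReal.ofReal_le_one] at this

lemma alpha_le {E : Type} [NormedAddCommGroup E] [NormedSpace ℂ E] {c : ℝ}
    (h : ∀ (m : ℕ) (x : Matrix (Fin m) (Fin m) E), minN x ≤ 1 → ∀ (H : Type) [NormedAddCommGroup H]
      [InnerProductSpace ℂ H] [CompleteSpace H] (u : E →L[ℂ] H →L[ℂ] H), ‖u‖ ≤ 1 →
        ‖tau (x.map u)‖ ≤ c) : alpha E ≤ ENNReal.ofReal c :=
  iSup_le fun m => iSup₂_le fun x hx => iSup_le fun H => iSup_le fun _ => iSup_le fun _ =>
    iSup_le fun _ => iSup₂_le fun u hu => opN_le (h m x hx H u hu)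

theorem up2 : alpha (EuclideanSpace ℂ (Fin n)) ≤ ENNReal.ofReal ((n + 1) / 2) := by
  refine alpha_le fun m x hx H _ _ _ u hu => ?_
  rw [tau_map (e := fun i => EuclideanSpace.single i 1) (φ := fun i => PiLp.proj 2 _ i)
    (fun v => by ext j; simp [Pi.single_apply])]
  refine U2 (fun i j => dg_comm _ _) (fun i j => dg_comm' _ _) (fun z => ?_)
    fun z => (dg_norm _ z).trans ?_
  · set v : EuclideanSpace ℂ (Fin n) := WithLp.toLp 2 fun i => conj (z i)
    have hv : √(∑ i, ‖z i‖ ^ 2) = ‖v‖ := by simp [EuclideanSpace.norm_eq, v]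
    rw [hv]
    rcases (norm_nonneg v).eq_or_lt with h | h
    · have : ∀ i, z i = 0 := fun i => by simpa [v] using congrArg (· i) (norm_eq_zero.1 h.symm)
      simp [this]
    have := piA_norm (H := H) (minN_le hx (innerSL ℂ ((‖v‖⁻¹ : ℂ) • v)) (by
      rw [innerSL_apply_norm, norm_smul]; simp [h.ne']))
    rw [show x.map (innerSL ℂ ((‖v‖⁻¹ : ℂ) • v)) = ∑ i, ((‖v‖⁻¹ : ℂ) * z i) • x.map
      (PiLp.proj 2 (fun _ : Fin n => ℂ) i : _ →L[ℂ] ℂ) by
        ext p q; simp [PiLp.inner_apply, v, Matrix.sum_apply, mul_sum, sum_mul, mul_comm,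
          mul_left_comm, mul_assoc],
      piA_sum] at this
    simp only [mul_smul, ← smul_sum, norm_smul, norm_inv, norm_real, norm_norm] at this
    rwa [inv_mul_le_iff₀ h, mul_one] at this
  · have := u.le_of_opNorm_le hu (WithLp.toLp 2 z)
    rw [one_mul, EuclideanSpace.norm_eq] at this
    refine le_trans (le_of_eq ?_) this
    simp only [← map_smul, ← map_sum]
    congr 2; ext j; simp [Pi.single_apply]

theorem upi (hn : 0 < n) : alpha (Fin n → ℂ) ≤ ENNReal.ofReal (n / √(2 * n - 1)) := by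
  refine alpha_le fun m x hx H _ _ _ u hu => ?_
  rw [tau_map (e := fun i => Pi.single i 1) (φ := fun i => ContinuousLinearMap.proj i)
    (fun v => by ext j; simp [Pi.single_apply])]
  choose D hD using fun i => ex_D (minN_le hx (ContinuousLinearMap.proj i)
    (ContinuousLinearMap.opNorm_le_bound _ zero_le_one fun v => by simpa using norm_le_pi_norm v i))
  have n1 : (1 : ℝ) ≤ n := by exact_mod_cast hn
  refine ContinuousLinearMap.opNorm_le_bound _ (by positivity) fun ξ => ?_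
  have := Ui (b := fun i => dg m (u (Pi.single i 1))) (d := fun i => piA H (D i))
    (fun i j => dg_comm _ _) (fun i j => dg_comm' _ _)
    (fun i j => dg_comm' _ _) (fun i => piA_D (hD i)) hn (fun z hz =>
      (dg_norm _ z).trans (by
        have := u.le_of_opNorm_le hu z
        refine le_trans (le_of_eq ?_) (this.trans (by
          rw [one_mul]; exact (pi_norm_le_iff_of_nonneg zero_le_one).2 hz))
        simp only [← map_smul, ← map_sum]
        congr 2; ext j; simp [Pi.single_apply])) ξ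
  refine (abs_le_of_sq_le_sq' ?_ (by positivity)).2
  rw [mul_pow, div_pow, Real.sq_sqrt (by linarith), div_mul_eq_mul_div, le_div_iff₀' (by linarith)]
  exact this

theorem lower {E : Type} [NormedAddCommGroup E] [NormedSpace ℂ E] (e : Fin n → E)
    (φ : Fin n → E →L[ℂ] ℂ) (hφ : ∀ i j, φ i (e j) = if i = j then 1 else 0)
    (A B : Fin n → Matrix (Fin m) (Fin m) ℂ)
    (hA : ∀ f : E →L[ℂ] ℂ, ‖f‖ ≤ 1 → ‖tE (∑ i, f (e i) • A i)‖ ≤ 1)
    (hB : ∀ v, ‖tE (∑ i, φ i v • B i)‖ ≤ ‖v‖) (X : Matrix (Fin m) (Fin m) ℂ)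
    (hX : ∑ q, ∑ r, ‖X q r‖ ^ 2 ≤ 1) :
    ENNReal.ofReal √(∑ p, ∑ s, ‖(∑ i, A i * X * (B i)ᵀ) p s‖ ^ 2) ≤ alpha E := by
  refine le_iSup_of_le m (le_iSup₂_of_le (Matrix.of fun p q => ∑ i, A i p q • e i)
    (iSup₂_le fun f hf => ?_) (le_iSup_of_le (EuclideanSpace ℂ (Fin m)) (le_iSup_of_le inferInstance
      (le_iSup_of_le inferInstance (le_iSup_of_le inferInstance (le_iSup₂_of_le
        (∑ i, (φ i).smulRight (tE (B i))) ?_ (le_iSup₂_of_le (fun q => WithLp.toLp 2 (X q)) ?_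
          (le_of_eq ?_))))))))
  · rw [← ofReal_norm, ENNReal.ofReal_le_one]
    refine le_trans (le_of_eq ?_) (hA f hf)
    congr 2
    ext p q; simp [Matrix.sum_apply, mul_comm]
  · refine ContinuousLinearMap.opNorm_le_bound _ zero_le_one fun v => ?_
    simpa using hB v
  · simpa [EuclideanSpace.norm_sq_eq] using hX
  · congr 2
    refine sum_congr rfl fun p _ => ?_
    rw [EuclideanSpace.norm_sq_eq]
    refine sum_congr rfl fun s _ => ?_
    congr 2
    simp [hφ, Matrix.sum_apply, Matrix.mul_apply, mulVec, dotProduct, mul_sum, sum_mul]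
    conv_rhs => rw [sum_comm]
    refine sum_congr rfl fun i _ => ?_
    rw [sum_comm]
    exact sum_congr rfl fun _ _ => sum_congr rfl fun _ _ => by ring

end
end Pool.Agent.H.MP_b87acb_an
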