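import Pool.Agent.H.MP_b87acb_an.B

set_option linter.unusedSectionVars false
set_option linter.unusedSimpArgs false

open Complex Finset Filter Topology Matrix
open scoped InnerProductSpace ComplexConjugate

namespace Pool.Agent.H.MP_b87acb_an

noncomputable section

variable {n m : ℕ}

structure CAR {ι : Type} [Fintype ι] [DecidableEq ι] (C : Fin n → Matrix ι ι ℂ) (l : ι → ℕ) : Prop where
  a1 : ∀ i j, (C i)ᴴ * C j + C j * (C i)ᴴ = if i = j then 1 else 0
  a2 : ∀ i j, C i * C j + C j * C i = 0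
  tr : ∀ i, (C i)ᵀ = (C i)ᴴ
  lv : ∀ d : ℕ → ℂ, ∑ i, C i * diagonal (fun a => d (l a)) * (C i)ᴴ = diagonal fun a => l a * d (l a - 1)
  ct : ∀ k, ∑ a, (if l a = k then 1 else 0 : ℝ) = n.choose k

lemma fb_sum {ι : Type} (A D : Fin n → Matrix ι ι ℂ) :
    ∑ i, fromBlocks (A i) 0 0 (D i) = fromBlocks (∑ i, A i) 0 0 (∑ i, D i) := by
  ext (a | a) (b | b) <;> simp [Matrix.sum_apply]

lemma car0 (n : ℕ) : ∃ (ι : Type) (_ : Fintype ι) (_ : DecidableEq ι) (C : Fin n → Matrix ι ι ℂ)
    (l : ι → ℕ), CAR C l := by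
  induction n with
  | zero => exact ⟨Unit, inferInstance, inferInstance, Fin.elim0, fun _ => 0, fun i => i.elim0,
      fun i => i.elim0, fun i => i.elim0, fun d => by simp, fun k => by cases k <;> simp⟩
  | succ n ih =>
    obtain ⟨ι, _, _, C, l, h⟩ := ih
    refine ⟨ι ⊕ ι, inferInstance, inferInstance, Fin.cons (fromBlocks 0 0 1 0)
      fun i => fromBlocks (C i) 0 0 (-C i), Sum.elim l fun a => l a + 1, fun i j => ?_, fun i j => ?_,
      fun i => ?_, fun d => ?_, fun k => ?_⟩
    · cases i using Fin.cases <;> cases j using Fin.cases <;>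
        simp [fromBlocks_conjTranspose, fromBlocks_multiply, fromBlocks_add, h.a1, fromBlocks_one,
          (Fin.succ_ne_zero _).symm]
      split_ifs <;> simp
    · cases i using Fin.cases <;> cases j using Fin.cases <;>
        simp [fromBlocks_multiply, fromBlocks_add, h.a2]
    · cases i using Fin.cases <;> simp [fromBlocks_conjTranspose, fromBlocks_transpose, h.tr]
    · rw [Fin.sum_univ_succ, show (diagonal fun a => d (Sum.elim l (fun a => l a + 1) a)) =
        fromBlocks (diagonal fun a => d (l a)) 0 0 (diagonal fun a => d (l a + 1)) by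
          ext (a | a) (b | b) <;> simp [diagonal_apply]]
      simp only [Fin.cons_zero, Fin.cons_succ, fromBlocks_conjTranspose, fromBlocks_multiply,
        conjTranspose_zero, conjTranspose_one, conjTranspose_neg, Matrix.mul_zero, Matrix.zero_mul,
        add_zero, zero_add, Matrix.mul_one, Matrix.one_mul, Matrix.neg_mul, Matrix.mul_neg, neg_neg, neg_zero]
      rw [fb_sum, h.lv, h.lv fun k => d (k + 1)]
      ext (a | a) (b | b) <;> simp [diagonal_apply]
      split_ifs
      · cases l a <;> simp; ring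
      · simp
    · rw [Fintype.sum_sum_type]
      show ∑ a, (if l a = k then 1 else 0 : ℝ) + ∑ a, (if l a + 1 = k then 1 else 0 : ℝ) = _
      cases k <;> simp only [h.ct, add_left_inj]
      · simp
      · rw [Nat.choose_succ_succ']; push_cast; ring

lemma car (n : ℕ) : ∃ (m : ℕ) (C : Fin n → Matrix (Fin m) (Fin m) ℂ) (l : Fin m → ℕ), CAR C l := by
  obtain ⟨ι, _, _, C, l, h⟩ := car0 n
  have e := (Fintype.equivFin ι).symm
  refine ⟨_, fun i => (C i).submatrix e e, fun a => l (e a), fun i j => ?_, fun i j => ?_, fun i => ?_,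
    fun d => ?_, fun k => (e.sum_comp fun a => (if l a = k then 1 else 0 : ℝ)).trans (h.ct k)⟩
  · simp only [conjTranspose_submatrix, submatrix_mul_equiv]
    refine (congrArg (fun M => M.submatrix e e) (h.a1 i j)).trans ?_
    split_ifs <;> simp
  · simp only [submatrix_mul_equiv]
    exact congrArg (fun M => M.submatrix e e) (h.a2 i j)
  · rw [conjTranspose_submatrix, transpose_submatrix, h.tr]
  · have := congrArg (fun M => M.submatrix e e) (h.lv d)
    simp only [submatrix_diagonal_equiv] at this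
    refine Eq.trans ?_ this
    rw [show (diagonal fun a => d (l (e a))) = (diagonal fun a => d (l a)).submatrix e e from
      (submatrix_diagonal_equiv (fun a => d (l a)) e).symm]
    simp only [conjTranspose_submatrix, submatrix_mul_equiv]
    ext; simp [Matrix.sum_apply]

lemma nb {A B : Matrix (Fin m) (Fin m) ℂ} {c : ℝ} (h : Aᴴ * A + Bᴴ * B = (c : ℂ) • 1) :
    ‖tE A‖ ≤ √c := by
  refine ContinuousLinearMap.opNorm_le_bound _ (Real.sqrt_nonneg _) fun v => ?_
  have := congrArg (fun M => q v v (tE M)) h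
  simp only [← star_eq_conjTranspose, map_add, map_mul, map_star, map_smul, map_one, q_add, q_sq, q_smul,
    q_one] at this
  rw [← Real.sqrt_sq (norm_nonneg v), ← Real.sqrt_mul' _ (sq_nonneg _)]
  exact Real.le_sqrt_of_sq_le (by linarith [sq_nonneg ‖tE B v‖])

namespace CAR
variable {C : Fin n → Matrix (Fin m) (Fin m) ℂ} {l : Fin m → ℕ} (h : CAR C l)
include h

lemma s1 (z : Fin n → ℂ) : (∑ i, z i • C i)ᴴ * (∑ i, z i • C i) + (∑ i, z i • C i) * (∑ i, z i • C i)ᴴ =
    ((∑ i, ‖z i‖ ^ 2 : ℝ) : ℂ) • 1 := by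
  simp only [conjTranspose_sum, conjTranspose_smul, sum_mul_sum, smul_mul_smul_comm]
  rw [sum_comm (f := fun i j => (z i * star (z j)) • _), ← sum_add_distrib]
  simp only [← sum_add_distrib, mul_comm (z _), ← smul_add, h.a1]
  simp [sum_smul, conj_mul']

lemma s2 (z : Fin n → ℂ) : (∑ i, z i • C i) * (∑ i, z i • C i) = 0 := by
  have : (2 : ℂ) • ((∑ i, z i • C i) * (∑ i, z i • C i)) = 0 := by
    rw [two_smul]
    simp only [sum_mul_sum, smul_mul_smul_comm]
    nth_rw 2 [sum_comm]
    simp only [← sum_add_distrib]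
    exact sum_eq_zero fun i _ => sum_eq_zero fun j _ => by rw [mul_comm (z j), ← smul_add, h.a2, smul_zero]
  simpa using this

lemma n1 (z : Fin n → ℂ) : ‖tE (∑ i, z i • C i)‖ ≤ √(∑ i, ‖z i‖ ^ 2) :=
  nb (B := (∑ i, z i • C i)ᴴ) (by rw [conjTranspose_conjTranspose, h.s1])

lemma n2 (t : Fin n → ℝ) : ‖tE (∑ i, (t i : ℂ) • (C i + (C i)ᴴ))‖ ≤ √(∑ i, t i ^ 2) := by
  refine nb (B := 0) ?_
  have e : ∑ i, (t i : ℂ) • (C i + (C i)ᴴ) = ∑ i, (t i : ℂ) • C i + (∑ i, (t i : ℂ) • C i)ᴴ := by
    simp [conjTranspose_sum, sum_add_distrib]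
  have e1 := h.s1 fun i => t i
  have e2 := h.s2 fun i => t i
  have e3 := congrArg conjTranspose e2
  simp only [norm_real, Real.norm_eq_abs, sq_abs, conjTranspose_mul, conjTranspose_zero] at e1 e3
  rw [e, conjTranspose_add, conjTranspose_conjTranspose, ← e1]
  simp only [Matrix.mul_add, Matrix.add_mul, e2, e3, Matrix.mul_zero]
  abel
end CAR

theorem low2 {k : ℕ} (hk : k ≤ n) :
    ENNReal.ofReal √((k + 1) * (n - k)) ≤ alpha (EuclideanSpace ℂ (Fin n)) := by
  obtain ⟨m, C, l, h⟩ := car n
  have c0 : (0 : ℝ) < n.choose k := by exact_mod_cast Nat.choose_pos hk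
  have c1 := Real.sq_sqrt c0.le
  refine le_trans (le_of_eq ?_) (lower (fun i => EuclideanSpace.single i 1) (fun i => PiLp.proj 2 _ i)
    (fun i j => by simp [Pi.single_apply]) C C (fun f hf => (h.n1 _).trans ?_)
    (fun v => (h.n1 _).trans_eq (EuclideanSpace.norm_eq v).symm)
    (diagonal fun a => if l a = k then ((√(n.choose k))⁻¹ : ℝ) else 0) ?_)
  · simp only [h.tr, h.lv fun j => if j = k then ((√(n.choose k))⁻¹ : ℝ) else 0]
    congr 2
    have : ∀ p, ∑ s, ‖diagonal (fun a => (l a : ℂ) * if l a - 1 = k then (((√(n.choose k))⁻¹ : ℝ) : ℂ)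
        else 0) p s‖ ^ 2 = (k + 1) ^ 2 / n.choose k * if l p = k + 1 then 1 else 0 := fun p => by
      rw [sum_eq_single p (fun s _ hs => by simp [diagonal_apply_ne' _ hs]) (by simp), diagonal_apply_eq]
      cases l p with
      | zero => simp
      | succ j =>
        simp only [Nat.add_sub_cancel, add_left_inj]
        split_ifs with hj
        · subst hj
          rw [norm_mul, Complex.norm_natCast, norm_real, mul_pow, Real.norm_eq_abs, sq_abs, inv_pow, c1]
          push_cast; ring
        · simp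
    rw [sum_congr rfl fun p _ => this p, ← mul_sum, h.ct]
    have := congrArg (Nat.cast (R := ℝ)) (Nat.choose_succ_right_eq n k)
    push_cast [hk] at this
    field_simp
    linear_combination -this
  · set v : EuclideanSpace ℂ (Fin n) := WithLp.toLp 2 fun i => conj (f (EuclideanSpace.single i 1))
    have hv : √(∑ i, ‖f (EuclideanSpace.single i 1)‖ ^ 2) = ‖v‖ := by simp [EuclideanSpace.norm_eq, v]
    have e : f v = (‖v‖ ^ 2 : ℝ) := by
      rw [← hv, Real.sq_sqrt (by positivity), show v = ∑ i, conj (f (EuclideanSpace.single i 1)) •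
        EuclideanSpace.single i 1 by ext j; simp [Pi.single_apply, v]]
      simp [conj_mul']
    have := f.le_of_opNorm_le hf v
    rw [e, norm_real, Real.norm_of_nonneg (sq_nonneg _)] at this
    rw [hv]; nlinarith [norm_nonneg v]
  · have : ∀ p, ∑ s, ‖diagonal (fun a => if l a = k then (((√(n.choose k))⁻¹ : ℝ) : ℂ) else 0) p s‖ ^ 2 =
        (n.choose k : ℝ)⁻¹ * if l p = k then 1 else 0 := fun p => by
      rw [sum_eq_single p (fun s _ hs => by simp [diagonal_apply_ne' _ hs]) (by simp), diagonal_apply_eq]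
      split_ifs <;> simp [c1]
    simp only [this, ← mul_sum, h.ct]
    rw [inv_mul_cancel₀ c0.ne']

theorem lowi (hn : 0 < n) : ENNReal.ofReal √(n / 2) ≤ alpha (Fin n → ℂ) := by
  obtain ⟨m, C, l, h⟩ := car n
  have n0 : (0 : ℝ) < n := by exact_mod_cast hn
  have m0 : (0 : ℝ) < m := by
    have := h.ct 0
    rcases m.eq_zero_or_pos with rfl | hm
    · simp at this
    · exact_mod_cast hm
  set c := fun i => C i + (C i)ᴴ with hc
  have c1 : ∀ i, ‖tE (c i)‖ ≤ 1 := fun i => by
    have := h.n2 (Pi.single i 1)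
    rw [sum_eq_single i (fun j _ hj => by simp [hj]) (by simp),
      sum_eq_single i (fun j _ hj => by simp [hj]) (by simp)] at this
    simpa [hc] using this
  have c2 : ∀ i, c i * (c i)ᵀ = 1 := fun i => by
    have e1 := h.a1 i i
    have e2 : C i * C i = 0 := by simpa [Pi.single_apply, ite_smul] using h.s2 (Pi.single i 1)
    have e3 := congrArg conjTranspose e2
    rw [conjTranspose_mul, conjTranspose_zero] at e3
    rw [if_pos rfl] at e1
    simp only [hc]
    rw [transpose_add, ← h.tr i, transpose_transpose, h.tr, ← e1]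
    simp only [Matrix.mul_add, Matrix.add_mul, e2, e3]; abel
  have s1 := Real.sq_sqrt m0.le
  have s2 := Real.sq_sqrt (show (0 : ℝ) ≤ 2 * n by positivity)
  have s3 : 0 < √(2 * n) := by positivity
  refine le_trans (le_of_eq ?_) (lower (fun i => Pi.single i 1) (fun i => ContinuousLinearMap.proj i)
    (fun i j => by simp [Pi.single_apply]) c (fun i => (((√(2 * n))⁻¹ : ℝ) : ℂ) • c i) (fun f hf => ?_)
    (fun v => ?_) ((((√m)⁻¹ : ℝ) : ℂ) • 1) ?_)
  · simp only [transpose_smul, Matrix.mul_smul, Matrix.smul_mul, Matrix.mul_one, c2, smul_smul, sum_const,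
      card_univ, Fintype.card_fin, ← Nat.cast_smul_eq_nsmul ℂ, Matrix.smul_apply, one_apply, smul_eq_mul,
      mul_ite, mul_one, mul_zero, apply_ite norm, norm_zero, ite_pow, norm_mul, mul_pow, norm_real,
      Real.norm_eq_abs, sq_abs, inv_pow, s1, s2, Complex.norm_natCast]
    congr 2
    simp; field_simp
  · choose w w1 w2 using fun i => exists_norm_eq_mul_self (f (Pi.single i 1))
    have e : f w = (∑ i, ‖f (Pi.single i 1)‖ : ℝ) := by
      conv_lhs => rw [show w = ∑ i, w i • Pi.single i 1 by ext j; simp [Pi.single_apply]]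
      simp [w2]
    have := f.le_of_opNorm_le hf w
    rw [e, norm_real, Real.norm_of_nonneg (by positivity), one_mul] at this
    rw [tE, map_sum]
    refine (norm_sum_le_of_le _ fun i _ => ?_).trans (this.trans
      ((pi_norm_le_iff_of_nonneg zero_le_one).2 fun i => (w1 i).le))
    rw [map_smul, norm_smul]; exact mul_le_of_le_one_right (norm_nonneg _) (c1 i)
  · rw [show ∑ i, ContinuousLinearMap.proj (R := ℂ) (φ := fun _ : Fin n => ℂ) i v •
        (((√(2 * n))⁻¹ : ℝ) : ℂ) • c i = (((√(2 * n))⁻¹ : ℝ) : ℂ) •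
        (∑ i, ((v i).re : ℂ) • c i + I • ∑ i, ((v i).im : ℂ) • c i) by
      simp only [smul_add, smul_sum, ← sum_add_distrib, smul_smul, ← add_smul]
      refine sum_congr rfl fun i _ => ?_
      congr 1
      rw [ContinuousLinearMap.proj_apply, mul_comm I, re_add_im, mul_comm], tE, map_smul,
      map_add, map_smul, norm_smul, norm_real, Real.norm_of_nonneg (by positivity), inv_mul_le_iff₀ s3]
    refine (norm_add_le _ _).trans ?_
    rw [norm_smul, norm_I, one_mul]
    refine (add_le_add (h.n2 _) (h.n2 _)).trans (abs_le_of_sq_le_sq' ?_ (by positivity)).2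
    have t1 := Real.sq_sqrt (show 0 ≤ ∑ i, (v i).re ^ 2 by positivity)
    have t2 := Real.sq_sqrt (show 0 ≤ ∑ i, (v i).im ^ 2 by positivity)
    have t3 : ∑ i, (v i).re ^ 2 + ∑ i, (v i).im ^ 2 ≤ n * ‖v‖ ^ 2 := by
      rw [← sum_add_distrib]
      refine (sum_le_card_nsmul _ _ (‖v‖ ^ 2) fun i _ => ?_).trans (by simp)
      rw [show (v i).re ^ 2 + (v i).im ^ 2 = ‖v i‖ ^ 2 by rw [Complex.sq_norm, normSq_apply]; ring]
      exact pow_le_pow_left₀ (norm_nonneg _) (norm_le_pi_norm v i) 2
    rw [mul_pow, s2]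
    nlinarith [sq_nonneg (√(∑ i, (v i).re ^ 2) - √(∑ i, (v i).im ^ 2))]
  · simp only [Matrix.smul_apply, one_apply, smul_eq_mul, mul_ite, mul_one, mul_zero, apply_ite norm,
      norm_zero, ite_pow, norm_real, Real.norm_eq_abs, sq_abs, inv_pow, s1]
    simp [m0.ne']

end
end Pool.Agent.H.MP_b87acb_an
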